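import Pool.Agent.Lib.MP_befe0b_co.CT.Upper
import Pool.Agent.Lib.MP_befe0b_co.CT.Lower
import Pool.Agent.Lib.MP_befe0b_co.CT.C4

/-!
A pair of bipartite graphs with cycles whose joint extremal number has a smaller exponent than the
extremal number of each of them.
-/

namespace Pool.Agent.Results.MP_befe0b_co.PairWithC4

open SimpleGraph

theorem result : ∃ (W : Type) (_ : Fintype W) (T : SimpleGraph W),
    T.Connected ∧ T.IsBipartite ∧ T.girth = 6 ∧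
    (∀ S : Set W, S.Nonempty → ∃ u ∈ S, (T.neighborSet u ∩ S).ncard ≤ 2) ∧
    ∃ ε c C : ℝ, 0 < ε ∧ 0 < c ∧ 0 < C ∧ ∃ n₀ : ℕ, ∀ n ≥ n₀,
      c * (n : ℝ) ^ (3 / 2 : ℝ) ≤ extremalNumber n (cycleGraph 4) ∧
      c * (n : ℝ) ^ (3 / 2 : ℝ) ≤ extremalNumber n T ∧
      ∀ G : SimpleGraph (Fin n), (cycleGraph 4).Free G → T.Free G →
        (G.edgeSet.ncard : ℝ) ≤ C * (n : ℝ) ^ (3 / 2 - ε) := by
  classical
  obtain ⟨m, K, n₁, h1⟩ := Lib.MP_befe0b_co.CT.lower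
  obtain ⟨c, hc, n₂, h2⟩ := Lib.MP_befe0b_co.CT.c4_lower
  obtain ⟨ε, C, hε, hC, h3⟩ := Lib.MP_befe0b_co.CT.upper (Fin (m + 2)) (K + 2)
  refine ⟨_, inferInstance, Lib.MP_befe0b_co.CT.T (Fin (m + 2)) (K + 2),
    Lib.MP_befe0b_co.CT.T_connected _, Lib.MP_befe0b_co.CT.T_bipartite _,
    Lib.MP_befe0b_co.CT.T_girth _, Lib.MP_befe0b_co.CT.T_deg _, ε, min c 1, C, hε,
    lt_min hc one_pos, hC, max n₁ n₂, fun n hn => ⟨?_, ?_, fun G g1 g2 => ?_⟩⟩
  · exact (mul_le_mul_of_nonneg_right (min_le_left _ _) (by positivity)).trans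
      (h2 n (le_of_max_le_right hn))
  · exact (mul_le_of_le_one_left (by positivity) (min_le_right _ _)).trans
      (h1 n (le_of_max_le_left hn))
  · rw [← coe_edgeFinset, Set.ncard_coe_finset]
    exact h3 n G g1 g2

end Pool.Agent.Results.MP_befe0b_co.PairWithC4
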