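import Pool.Agent.Lib.MP_befe0b_co.BC.TLit

/-! The Bukh–Conlon family of a tame tree and its disjoint power have the same exponent. -/

open Filter Topology Pool.Agent.Lib.MP_befe0b_co.BC

theorem Pool.Agent.Results.MP_befe0b_co.TreePower.result :
    ∀ (ι : Type) [Fintype ι] (U : SimpleGraph ι) (κ : ι → ℕ) (L : ℕ) (X : Set ι) (ρ : ℝ),
      2 ≤ ρ → Tame U κ L X → Thin U κ ρ →
      (∀ p : ℕ, ∃ C : ℝ, ∀ n : ℕ,
        (SimpleGraph.extremalNumber n (tpw U κ p) : ℝ) ≤ C * (n : ℝ) ^ (2 - 1 / ρ)) ∧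
      (ρ * Fintype.card ι = ((Fintype.card ι - 1 + ∑ v, κ v : ℕ) : ℝ) →
        ∃ (p : ℕ) (c : ℝ), 0 < c ∧ (∀ᶠ n : ℕ in atTop, ∃ G : SimpleGraph (Fin n),
          c * (n : ℝ) ^ (2 - 1 / ρ) ≤ G.edgeSet.ncard ∧ ∀ φ : Fin p → (tw U κ).Copy G,
            (∀ s t r, φ s (.inr r) = φ t (.inr r)) → ¬ Function.Injective φ) ∧
        ∀ (m : ℕ) (w : Fin m → ℕ) (H : ∀ i, SimpleGraph (Fin (w i))) (a b : Fin m → ℝ) (α β : ℝ),
          (∀ i, ∃ φ : Fin p → (tw U κ).Copy (H i),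
            (∀ s t r, φ s (.inr r) = φ t (.inr r)) ∧ Function.Injective φ) →
          (∃ i q, (H i).IsContained (tpw U κ q)) →
          (∀ i, 0 < b i ∧ Tendsto (fun n : ℕ =>
            (SimpleGraph.extremalNumber n (H i) : ℝ) / (n : ℝ) ^ a i) atTop (𝓝 (b i))) →
          0 < β → Tendsto (fun n : ℕ => ((sSup {e : ℕ | ∃ G : SimpleGraph (Fin n),
            (∀ i, (H i).Free G) ∧ G.edgeSet.ncard = e} : ℕ) : ℝ) / (n : ℝ) ^ α) atTop (𝓝 β) →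
          IsLeast (Set.range a) α ∧ α = 2 - 1 / ρ) :=
  fun _ _ _ _ _ _ _ hρ h hb => ⟨h.upper hρ hb, fun he =>
    (h.lower hρ hb he).imp fun _ h1 => h1.imp fun _ h2 =>
      ⟨h2.1, h2.2, h.family hρ hb h2.1 h2.2⟩⟩
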