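import Pool.Agent.Lib.MP_befe0b_co.BK.Main

/-!
A balanced rooted tree of density two with a disjoint power whose extremal number has exponent
larger than three halves.
-/

namespace Pool.Agent.Results.MP_befe0b_co.TreePowerFails

open SimpleGraph Filter Pool.Agent.Lib.MP_befe0b_co

theorem result : ∃ (ι ϱ : Type) (_ : Fintype ι) (_ : Fintype ϱ) (F : SimpleGraph (ι ⊕ ϱ)),
    F.IsTree ∧ Nonempty ι ∧ (∀ x, (∃! y, F.Adj x y) ↔ ∃ r, x = Sum.inr r) ∧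
    (∀ r s, ¬ F.Adj (Sum.inr r) (Sum.inr s)) ∧
    F.edgeSet.ncard = 2 * Fintype.card ι ∧
    (∀ S : Finset ι, 2 * S.card ≤ {e ∈ F.edgeSet | ∃ s ∈ S, Sum.inl s ∈ e}.ncard) ∧
    ∃ (p : ℕ) (ε : ℝ), 0 < ε ∧ ∀ᶠ n : ℕ in atTop,
      (n : ℝ) ^ (3 / 2 + ε) ≤ extremalNumber n (RX.rpw F p) := by
  obtain ⟨a, h⟩ := BK.lower
  exact ⟨_, _, inferInstance, inferInstance, BK.tr a, BK.tree_tr, ⟨none⟩, BK.leaf_tr, BK.ind_tr,
    BK.card_tr, BK.bal_tr, h⟩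

end Pool.Agent.Results.MP_befe0b_co.TreePowerFails
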